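import Pool.Agent.H73.CBD.Stmts

set_option autoImplicit false

namespace Pool.CBD

theorem UBD_thm (hALG : ALGStmt) (hALH : ALHStmt) : UBDStmt := by
  obtain ⟨-, -, -, -, -, hN2, hNpos, hfne, -⟩ := hALG
  obtain ⟨hfs, hNs, -, -, -⟩ := hALH
  refine ⟨?_, ?_⟩
  · intro z hz
    have h0 : 0 < N z := hNpos z hz
    have h1 : 0 < N (f z) := hNpos (f z) (hfne z hz)
    obtain ⟨h2, h3⟩ := hN2 z
    have h4 : Real.log (N z ^ 2) = 2 * Real.log (N z) := by
      rw [Real.log_pow]; norm_num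
    have h5 : 0 < N z ^ 2 := by positivity
    unfold u
    refine ⟨?_, ?_⟩
    · have h6 := Real.log_le_log h5 h2
      linarith
    · have h6 := Real.log_le_log h1 h3
      rw [Real.log_mul (by norm_num) h5.ne'] at h6
      linarith
  · intro c z hc
    by_cases hz : z = 0
    · rw [hz, smul_zero]
    · have h0 : 0 < N z := hNpos z hz
      have h1 : 0 < N (f z) := hNpos (f z) (hfne z hz)
      have hc0 : 0 < ‖c‖ := norm_pos_iff.mpr hc
      have hc1 : ‖c‖ ^ 2 ≠ 0 := (pow_pos hc0 2).ne'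
      have hc2 : (‖c‖ ^ 2) ^ 2 ≠ 0 := pow_ne_zero 2 hc1
      unfold u
      rw [hfs, hNs, hNs, norm_pow, Real.log_mul hc2 h1.ne', Real.log_mul hc1 h0.ne',
        Real.log_pow, Real.log_pow]
      push_cast
      ring

end Pool.CBD
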